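import Mathlib
import Pool.Agent.MP_b6cdd3_co.H71.Cycle

namespace Pool.Agent.Results.MP_b6cdd3_co.LinearNotCircular

/-- Closed under isomorphism and induced subgraphs. -/
def Hereditary (P : ∀ n : ℕ, SimpleGraph (Fin n) → Prop) : Prop :=
  ∀ (m n : ℕ) (H : SimpleGraph (Fin m)) (G : SimpleGraph (Fin n)), Nonempty (H ↪g G) →
    P n G → P m H

/-- Described by finitely many forbidden linearly ordered graphs. -/
def LinDescribed (P : ∀ n : ℕ, SimpleGraph (Fin n) → Prop) : Prop :=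
  ∃ F : Set (Σ m : ℕ, SimpleGraph (Fin m) × LinearOrder (Fin m)), F.Finite ∧
    ∀ (n : ℕ) (G : SimpleGraph (Fin n)), P n G ↔
      ∃ l : LinearOrder (Fin n), ∀ X ∈ F,
        ¬ ∃ e : X.2.1 ↪g G, ∀ a b, X.2.2.lt a b ↔ l.lt (e a) (e b)

/-- Described by finitely many forbidden circularly ordered graphs. -/
def CircDescribed (P : ∀ n : ℕ, SimpleGraph (Fin n) → Prop) : Prop :=
  ∃ F : Set (Σ m : ℕ, SimpleGraph (Fin m) × CircularOrder (Fin m)), F.Finite ∧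
    ∀ (n : ℕ) (G : SimpleGraph (Fin n)), P n G ↔
      ∃ c : CircularOrder (Fin n), ∀ X ∈ F,
        ¬ ∃ e : X.2.1 ↪g G, ∀ a b d, X.2.2.sbtw a b d ↔ c.sbtw (e a) (e b) (e d)

open Pool.Agent.MP_b6cdd3_co.H71 in
theorem result : ∃ P : ∀ n : ℕ, SimpleGraph (Fin n) → Prop,
    Hereditary P ∧ LinDescribed P ∧ ¬ CircDescribed P := by
  refine ⟨fun _ G => G.Colorable 2, ?_, ?_, ?_⟩
  · rintro m n H G ⟨e⟩ h
    exact h.of_hom e.toHom
  · refine ⟨(fun H : SimpleGraph (Fin 3) => ⟨3, H, inferInstance⟩) '' {H | H.Adj 0 1 ∧ H.Adj 1 2},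
      (Set.toFinite _).image _, fun n G => ⟨fun h => ?_, ?_⟩⟩
    · obtain ⟨l, hl⟩ := exists_order_of_colorable G h
      refine ⟨l, ?_⟩
      rintro X ⟨H, ⟨h1, h2⟩, rfl⟩ ⟨e, he⟩
      have b1 : (0 : Fin 3) < 1 := by decide
      have b2 : (1 : Fin 3) < 2 := by decide
      exact hl _ _ _ ((he (0 : Fin 3) (1 : Fin 3)).1 b1) ((he (1 : Fin 3) (2 : Fin 3)).1 b2)
        (e.map_rel_iff.2 h1) (e.map_rel_iff.2 h2)
    · rintro ⟨l, hl⟩
      refine @colorable_of_order _ l G (fun x y z hxy hyz a1 a2 => ?_)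
      exact hl ⟨3, G.comap ![x, y, z], inferInstance⟩ ⟨_, ⟨a1, a2⟩, rfl⟩
        (@triple_embedding _ l G x y z hxy hyz)
  · rintro ⟨F, hF, hP⟩
    obtain ⟨m, hm⟩ := (hF.image (fun X => X.1)).bddAbove
    obtain ⟨n, G, hG, hU⟩ := exists_universal m
    obtain ⟨c, hc⟩ := (hP n G).1 hG
    refine cycG_not_colorable m ((hP _ (cycG m)).2 ⟨LinearOrder.toCircularOrder _, ?_⟩)
    rintro X hX ⟨e, he⟩
    have h1 : X.1 ≤ m := hm ⟨X, hX, rfl⟩
    obtain ⟨e', he'⟩ := hU c X.1 (by omega) X.2.1 e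
    exact hc X hX ⟨e', fun a b d => (he a b d).trans (he' a b d)⟩

end Pool.Agent.Results.MP_b6cdd3_co.LinearNotCircular
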